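import Pool.Agent.helper67.RG.Spec

namespace Pool.Agent.RG.NIL

open Matrix Pool.Agent.RG Pool.Agent.GO Pool.Agent.AR

universe u v w

section

variable {F : Type u} {Γ : Type v} {m : Type w} [Field F] [Group Γ] [Fintype m] [DecidableEq m]

/-- The elements of `L` which lower the degree by `j`. -/
def NIL_K (L : Submodule F (Matrix m m F × Matrix (Fin 2) (Fin 2) F)) (N : ℕ)
    (c : ℕ → Submodule F (m → F)) (j : ℕ) :
    Submodule F (Matrix m m F × Matrix (Fin 2) (Fin 2) F) where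
  carrier := {q | q ∈ L ∧ ∀ i, i + j ≤ N → ∀ x ∈ c (i + j), q.1 *ᵥ x ∈ c i}
  add_mem' := by
    rintro a b ⟨ha, ha'⟩ ⟨hb, hb'⟩
    refine ⟨L.add_mem ha hb, ?_⟩
    intro i hi x hx
    rw [Prod.fst_add, Matrix.add_mulVec]
    exact (c i).add_mem (ha' i hi x hx) (hb' i hi x hx)
  zero_mem' := by
    refine ⟨L.zero_mem, ?_⟩
    intro i _ x _
    rw [Prod.fst_zero, Matrix.zero_mulVec]
    exact (c i).zero_mem
  smul_mem' := by
    rintro r a ⟨ha, ha'⟩
    refine ⟨L.smul_mem r ha, ?_⟩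
    intro i hi x hx
    rw [Prod.smul_fst, Matrix.smul_mulVec]
    exact (c i).smul_mem r (ha' i hi x hx)

theorem NIL_mem_K (L : Submodule F (Matrix m m F × Matrix (Fin 2) (Fin 2) F)) (N : ℕ)
    (c : ℕ → Submodule F (m → F)) (j : ℕ) (q : Matrix m m F × Matrix (Fin 2) (Fin 2) F) :
    q ∈ NIL_K L N c j ↔ q ∈ L ∧ ∀ i, i + j ≤ N → ∀ x ∈ c (i + j), q.1 *ᵥ x ∈ c i := Iff.rfl

/-- The commutator of the elementary matrices, up to scalars, is not scalar. -/
theorem NIL_comm [CharZero F] (a b : F) (Y Y' : Matrix (Fin 2) (Fin 2) F)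
    (hY : Y = !![0, 1; 0, 0] + a • (1 : Matrix (Fin 2) (Fin 2) F))
    (hY' : Y' = !![0, 0; 1, 0] + b • (1 : Matrix (Fin 2) (Fin 2) F)) :
    ¬ IsScal (Y * Y' - Y' * Y) := by
  rintro ⟨r, hr⟩
  have e : Y * Y' - Y' * Y = !![1, 0; 0, -1] := by
    rw [hY, hY']
    ext i j
    fin_cases i <;> fin_cases j <;>
      simp [Matrix.mul_apply, Fin.sum_univ_two, Matrix.one_apply] <;> ring
  rw [e] at hr
  have h0 := congrFun (congrFun hr 0) 0
  have h1 := congrFun (congrFun hr 1) 1
  simp [Matrix.one_apply] at h0 h1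
  rw [← h0] at h1
  have h2 : (2 : F) = 0 := by
    have : (1 : F) + 1 = 0 := by
      nth_rewrite 2 [← h1]
      ring
    rw [← this]
    norm_num
  exact two_ne_zero h2

end

theorem NIL (h1 : FIL_stmt.{u, v}) : NIL_stmt.{u, v, w} := by
  intro F Γ m _ _ _ _ _ _ V ρ hρ L hL _ N c hc p hpL hp
  by_contra hns
  -- the induction
  have key : ∀ j, 1 ≤ j → j ≤ N → ∃ q ∈ NIL_K L N c j, ¬ IsScal q.2 := by
    intro j hj
    induction j, hj using Nat.le_induction with
    | base =>
      intro _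
      refine ⟨p, ?_, hns⟩
      rw [NIL_mem_K]
      exact ⟨hpL, fun i hi x hx => hp i (by omega) x hx⟩
    | succ j hj ih =>
      intro hjN
      -- the second components of K_l, up to scalars, contain everything of trace zero
      have hfil : ∀ l, l ≤ N → (∃ q ∈ NIL_K L N c l, ¬ IsScal q.2) →
          ∀ Z : Matrix (Fin 2) (Fin 2) F, Z.trace = 0 →
          ∃ q ∈ NIL_K L N c l, ∃ a : F, q.2 = Z + a • (1 : Matrix (Fin 2) (Fin 2) F) := by
        intro l hl hex Z hZ
        obtain ⟨q, hq, hqs⟩ := hex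
        obtain ⟨a, ha⟩ := h1 ρ hρ ((NIL_K L N c l).map (LinearMap.snd F _ _)) (by
          intro g Y hY
          rw [Submodule.mem_map] at hY ⊢
          obtain ⟨q, hq, rfl⟩ := hY
          rw [NIL_mem_K] at hq
          refine ⟨(V g * q.1 * V g⁻¹, ρ g * q.2 * ρ g⁻¹), ?_, rfl⟩
          rw [NIL_mem_K]
          refine ⟨hL.conj g q hq.1, ?_⟩
          intro i hi x hx
          have h2 : (V g * q.1 * V g⁻¹) *ᵥ x = V g *ᵥ (q.1 *ᵥ (V g⁻¹ *ᵥ x)) := by
            rw [Matrix.mulVec_mulVec, Matrix.mulVec_mulVec]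
          show (V g * q.1 * V g⁻¹) *ᵥ x ∈ c i
          rw [h2]
          exact hc.stable i (by omega) g _ (hq.2 i hi _ (hc.stable (i + l) hi g⁻¹ x hx)))
          ⟨q.2, ⟨q, hq, rfl⟩, hqs⟩ Z hZ
        rw [Submodule.mem_map] at ha
        obtain ⟨q', hq', hq2⟩ := ha
        exact ⟨q', hq', a, hq2⟩
      obtain ⟨q, hq, a, ha⟩ := hfil 1 (by omega)
        ⟨p, by rw [NIL_mem_K]; exact ⟨hpL, fun i hi x hx => hp i (by omega) x hx⟩, hns⟩
        !![0, 1; 0, 0] (by simp [Matrix.trace_fin_two])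
      obtain ⟨q', hq', b, hb⟩ := hfil j (by omega) (ih (by omega))
        !![0, 0; 1, 0] (by simp [Matrix.trace_fin_two])
      rw [NIL_mem_K] at hq hq'
      refine ⟨q * q' - q' * q, ?_, ?_⟩
      · rw [NIL_mem_K]
        refine ⟨hL.lie q hq.1 q' hq'.1, ?_⟩
        intro i hi x hx
        have h2 : (q * q' - q' * q).1 *ᵥ x = q.1 *ᵥ (q'.1 *ᵥ x) - q'.1 *ᵥ (q.1 *ᵥ x) := by
          rw [Prod.fst_sub, Prod.fst_mul, Prod.fst_mul, Matrix.sub_mulVec, Matrix.mulVec_mulVec,
            Matrix.mulVec_mulVec]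
        rw [h2]
        have e1 : i + (j + 1) = (i + 1) + j := by omega
        have e2 : i + (j + 1) = (i + j) + 1 := by omega
        refine (c i).sub_mem ?_ ?_
        · refine hq.2 i (by omega) _ (hq'.2 (i + 1) (by omega) x ?_)
          rw [← e1]
          exact hx
        · refine hq'.2 i (by omega) _ (hq.2 (i + j) (by omega) x ?_)
          rw [← e2]
          exact hx
      · rw [Prod.snd_sub, Prod.snd_mul, Prod.snd_mul]
        exact NIL_comm a b _ _ ha hb
  -- a matrix killing everything is zero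
  have hzero : ∀ X : Matrix m m F, (∀ x, X *ᵥ x = 0) → X = 0 := by
    intro X hX
    ext i j
    have := congrFun (hX (Pi.single j 1)) i
    rw [Matrix.mulVec_single_one] at this
    exact this
  rcases Nat.eq_zero_or_pos N with hN | hN
  · -- the space is zero
    have h0 : p.1 = 0 := by
      apply hzero
      intro x
      have hx : p.1 *ᵥ x ∈ (⊤ : Submodule F (m → F)) := Submodule.mem_top
      rw [← hc.top, hN, hc.bot] at hx
      exact (Submodule.mem_bot F).1 hx
    exact hns (hL.inj p hpL h0)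
  · obtain ⟨q, hq, hqs⟩ := key N hN le_rfl
    rw [NIL_mem_K] at hq
    apply hqs
    apply hL.inj q hq.1
    apply hzero
    intro x
    have hx := hq.2 0 (by omega) x (by rw [zero_add, hc.top]; exact Submodule.mem_top)
    rw [hc.bot] at hx
    exact (Submodule.mem_bot F).1 hx

end Pool.Agent.RG.NIL
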